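import Pool.Agent.Y922.AP.Stm3

/-!
# Project AQ, job SQ: an even entire function is an entire function of the square
-/

set_option autoImplicit false

open Filter Topology Set

namespace Pool.Agent.Y455.AQ

theorem t_SQ : Pool.Agent.Y922.AQ.S_SQ := by
  intro h hh hsub
  let f : ℂ → ℂ := fun z => h (1 / 2 + z)
  have hf : Differentiable ℂ f := fun z =>
    (hh _).comp z ((differentiableAt_const _).add differentiableAt_id)
  have hev : ∀ z, f (-z) = f z := by
    intro z
    change h (1 / 2 + -z) = h (1 / 2 + z)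
    rw [← hsub]
    congr 1
    ring
  have hsq : ∀ z w : ℂ, z ^ 2 = w ^ 2 → f z = f w := by
    intro z w h
    rcases sq_eq_sq_iff_eq_or_eq_neg.1 h with h | h
    · rw [h]
    · rw [h, hev]
  let X : ℂ → ℂ := fun y => f (y ^ (1 / 2 : ℂ))
  have hroot : ∀ y : ℂ, (y ^ (1 / 2 : ℂ)) ^ 2 = y := by
    intro y
    have h := Complex.cpow_nat_inv_pow y two_ne_zero
    have e : (1 / 2 : ℂ) = ((2 : ℕ) : ℂ)⁻¹ := by norm_num
    rw [e]
    exact h
  have hX : ∀ y w : ℂ, w ^ 2 = y → X y = f w := by
    intro y w h
    exact hsq _ _ (by rw [hroot, h])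
  have hd : DifferentiableOn ℂ X (Set.univ \ {0}) := by
    intro y hy
    have hy0 : y ≠ 0 := fun h => hy.2 (by rw [h]; rfl)
    apply DifferentiableAt.differentiableWithinAt
    by_cases hs : y ∈ Complex.slitPlane
    · have h1 : DifferentiableAt ℂ (fun y : ℂ => y ^ (1 / 2 : ℂ)) y :=
        differentiableAt_id.cpow_const hs
      exact (hf _).comp y h1
    · have hs' : -y ∈ Complex.slitPlane := by
        rw [Complex.mem_slitPlane_iff] at hs ⊢
        push Not at hs
        left
        rw [Complex.neg_re]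
        have h2 : y.re ≠ 0 := fun h => hy0 (Complex.ext h hs.2)
        have h3 := lt_of_le_of_ne hs.1 h2
        linarith
      have h1 : DifferentiableAt ℂ (fun y : ℂ => f (Complex.I * (-y) ^ (1 / 2 : ℂ))) y := by
        have h2 : DifferentiableAt ℂ (fun y : ℂ => (-y) ^ (1 / 2 : ℂ)) y :=
          (differentiableAt_id.neg).cpow_const hs'
        exact (hf _).comp y (h2.const_mul Complex.I)
      have h3 : X = fun y : ℂ => f (Complex.I * (-y) ^ (1 / 2 : ℂ)) := by
        funext y
        apply hX
        rw [mul_pow, hroot, Complex.I_sq]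
        ring
      rw [h3]
      exact h1
  have hc : ContinuousAt X 0 := by
    have h1 : ContinuousAt (fun y : ℂ => y ^ (1 / 2 : ℂ)) 0 :=
      Complex.continuousAt_cpow_const_of_re_pos (by left; simp) (by norm_num)
    exact (hf.continuous.continuousAt).comp h1
  have hXd : DifferentiableOn ℂ X Set.univ :=
    (Complex.differentiableOn_compl_singleton_and_continuousAt_iff univ_mem).1 ⟨hd, hc⟩
  refine ⟨X, differentiableOn_univ.1 hXd, fun s => ?_⟩
  rw [hX _ (s - 1 / 2) rfl]
  change h (1 / 2 + (s - 1 / 2)) = h s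
  congr 1
  ring

end Pool.Agent.Y455.AQ
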